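import Pool.Agent.Run7.h718.Main

open Set Metric Filter Topology

/-- Time-one maps of holomorphic vector fields, in every dimension: an isolated fixed point
carries an invariant injectively immersed half plane, and hence parabolic curves on all
components of `D_{δ,ν}`. -/
theorem Pool.Agent.Results.MP_693ed2_an.TimeOneMaps.result
    (n : ℕ) (hn : 1 ≤ n)
    (X f : EuclideanSpace ℂ (Fin n) → EuclideanSpace ℂ (Fin n))
    (hX : AnalyticAt ℂ X 0) (hX0 : X 0 = 0) (hX1 : fderiv ℂ X 0 = 0)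
    (hf : Run7.h718.IsTimeOneMap X f)
    (hfix : ∀ᶠ z in 𝓝[≠] (0 : EuclideanSpace ℂ (Fin n)), f z ≠ z) :
    ∃ w : ℂ → EuclideanSpace ℂ (Fin n),
      (∀ t : ℂ, 0 < t.re → w t ≠ 0 ∧ HasDerivAt w (X (w t)) t ∧ f (w t) = w (t + 1)) ∧
      InjOn w {t : ℂ | 0 < t.re} ∧
      (∀ ε > 0, ∃ R : ℝ, ∀ t : ℂ, R < t.re → ‖w t‖ < ε) ∧
      ∀ (ν : ℕ) (δ : ℝ), 2 ≤ ν → 0 < δ →
        ∃ φ : ℂ → EuclideanSpace ℂ (Fin n),
          InjOn φ (Run7.h718.petals δ ν) ∧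
          φ '' Run7.h718.petals δ ν ⊆ w '' {t : ℂ | 0 < t.re} ∧
          ∀ ζ₀ ∈ Run7.h718.petals δ ν,
            Run7.h718.IsParabolicCurve f
              (connectedComponentIn (Run7.h718.petals δ ν) ζ₀) φ := by
  have : Nonempty (Fin n) := ⟨⟨0, hn⟩⟩
  exact Run7.h718.main_thm hX hX0 hX1 hf hfix
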